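import Mathlib

namespace Pool.Agent.H.MP_68b5a7_an

noncomputable def ph (t : ℝ) (p : ℝ × ℝ) : ℝ × ℝ :=
  if p.1 < 1 / 2 ∧ p.2 < 1 / 2 then
    (if p.1 < 1 / 2 - t then p.1 + t else p.1 + (t - 1 / 2),
     if p.2 < t then p.2 + (1 / 2 - t) else p.2 + -t)
  else p

lemma orbit (t : ℝ) (h0 : 0 < t) (h1 : t < 1 / 2) (hi : Irrational t) (N : ℕ) :
    ∃ x : ℝ, ∃ k : ℤ, (ph t)^[N + 1] (0, 0) = (x, 1 / 2 - x) ∧ 0 < x ∧ x < 1 / 2 ∧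
      x = (N + 1) * t - k / 2 := by
  induction N with
  | zero =>
    refine ⟨t, 0, ?_, h0, h1, by simp⟩
    have : (0:ℝ) < 1 / 2 - t := by linarith
    simp only [zero_add, Function.iterate_one, ph]
    rw [if_pos (by norm_num), if_pos this, if_pos h0]
  | succ N ih =>
    obtain ⟨x, k, e, a, b, c⟩ := ih
    rw [Function.iterate_succ_apply', e]
    have hne : x ≠ 1 / 2 - t := by
      intro h
      have e2 : ((N + 2 : ℕ) : ℝ) * t = ((((k + 1 : ℤ) : ℚ) / 2 : ℚ) : ℝ) := by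
        push_cast; linarith
      have := hi.natCast_mul (m := N + 2) (by omega)
      rw [e2] at this
      exact Rat.not_irrational _ this
    simp only [ph]
    rw [if_pos ⟨b, by linarith⟩]
    rcases lt_or_gt_of_ne hne with h | h
    · rw [if_pos h, if_neg (by linarith)]
      refine ⟨x + t, k, ?_, by linarith, by linarith, by push_cast; linarith⟩
      congr 1; ring
    · rw [if_neg (by linarith), if_pos (by linarith)]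
      refine ⟨x + (t - 1 / 2), k + 1, ?_, by linarith, by linarith, by push_cast; linarith⟩
      congr 1; ring

theorem main :
    ¬ (∀ (m : ℕ) (a1 b1 a2 b2 v1 v2 : Fin m → ℝ) (φ : ℝ × ℝ → ℝ × ℝ),
      Pairwise (fun r s : Fin m =>
        Disjoint (Set.Ico (a1 r) (b1 r) ×ˢ Set.Ico (a2 r) (b2 r))
          (Set.Ico (a1 s) (b1 s) ×ˢ Set.Ico (a2 s) (b2 s))) →
      (⋃ r : Fin m, Set.Ico (a1 r) (b1 r) ×ˢ Set.Ico (a2 r) (b2 r))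
          = Set.Ico (0:ℝ) 1 ×ˢ Set.Ico (0:ℝ) 1 →
      Pairwise (fun r s : Fin m =>
        Disjoint
          (Set.Ico (a1 r + v1 r) (b1 r + v1 r) ×ˢ Set.Ico (a2 r + v2 r) (b2 r + v2 r))
          (Set.Ico (a1 s + v1 s) (b1 s + v1 s) ×ˢ Set.Ico (a2 s + v2 s) (b2 s + v2 s))) →
      (⋃ r : Fin m,
          Set.Ico (a1 r + v1 r) (b1 r + v1 r) ×ˢ Set.Ico (a2 r + v2 r) (b2 r + v2 r))
          = Set.Ico (0:ℝ) 1 ×ˢ Set.Ico (0:ℝ) 1 →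
      (∀ r : Fin m, ∀ x ∈ Set.Ico (a1 r) (b1 r) ×ˢ Set.Ico (a2 r) (b2 r),
          φ x = (x.1 + v1 r, x.2 + v2 r)) →
      ∀ x ∈ Set.Ico (0:ℝ) 1 ×ˢ Set.Ico (0:ℝ) 1, ∀ ε : ℝ, 0 < ε →
        ∃ N : ℕ, 1 ≤ N ∧ ∃ k1 k2 : ℤ,
          ((φ^[N] x).1 - x.1 + (k1 : ℝ)) ^ 2 + ((φ^[N] x).2 - x.2 + (k2 : ℝ)) ^ 2 ≤ ε ^ 2) := by
  intro H
  obtain ⟨t, h0, h1, hi⟩ : ∃ t : ℝ, 0 < t ∧ t < 1 / 2 ∧ Irrational t := by
    obtain ⟨t, a, b, c⟩ := exists_irrational_btwn (show (0:ℝ) < 1 / 2 by norm_num)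
    exact ⟨t, b, c, a⟩
  have key := H 6 ![0, 1 / 2 - t, 0, 1 / 2 - t, 1 / 2, 0] ![1 / 2 - t, 1 / 2, 1 / 2 - t, 1 / 2, 1, 1 / 2]
    ![t, 0, 0, t, 0, 1 / 2] ![1 / 2, t, t, 1 / 2, 1, 1]
    ![t, t - 1 / 2, t, t - 1 / 2, 0, 0] ![-t, 1 / 2 - t, 1 / 2 - t, -t, 0, 0] (ph t)
    (by
      intro r s hrs
      rw [Set.disjoint_left]
      rintro ⟨x, y⟩ ⟨⟨p1, p2⟩, p3, p4⟩ ⟨⟨q1, q2⟩, q3, q4⟩
      fin_cases r <;> fin_cases s <;> simp at hrs p1 p2 p3 p4 q1 q2 q3 q4 <;> linarith)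
    (by
      ext ⟨x, y⟩
      simp only [Set.mem_iUnion, Set.mem_prod, Set.mem_Ico]
      constructor
      · rintro ⟨r, ⟨p1, p2⟩, p3, p4⟩
        fin_cases r <;> simp at p1 p2 p3 p4 <;> refine ⟨⟨?_, ?_⟩, ?_, ?_⟩ <;> linarith
      · rintro ⟨⟨p1, p2⟩, p3, p4⟩
        by_cases c1 : 1 / 2 ≤ x
        · exact ⟨4, ⟨c1, p2⟩, p3, p4⟩
        by_cases c2 : 1 / 2 ≤ y
        · exact ⟨5, ⟨p1, not_le.1 c1⟩, c2, p4⟩
        by_cases c3 : 1 / 2 - t ≤ x <;> by_cases c4 : t ≤ y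
        · exact ⟨3, ⟨c3, not_le.1 c1⟩, c4, not_le.1 c2⟩
        · exact ⟨1, ⟨c3, not_le.1 c1⟩, p3, not_le.1 c4⟩
        · exact ⟨0, ⟨p1, not_le.1 c3⟩, c4, not_le.1 c2⟩
        · exact ⟨2, ⟨p1, not_le.1 c3⟩, p3, not_le.1 c4⟩)
    (by
      intro r s hrs
      rw [Set.disjoint_left]
      rintro ⟨x, y⟩ ⟨⟨p1, p2⟩, p3, p4⟩ ⟨⟨q1, q2⟩, q3, q4⟩
      fin_cases r <;> fin_cases s <;> simp at hrs p1 p2 p3 p4 q1 q2 q3 q4 <;> linarith)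
    (by
      ext ⟨x, y⟩
      simp only [Set.mem_iUnion, Set.mem_prod, Set.mem_Ico]
      constructor
      · rintro ⟨r, ⟨p1, p2⟩, p3, p4⟩
        fin_cases r <;> simp at p1 p2 p3 p4 <;> refine ⟨⟨?_, ?_⟩, ?_, ?_⟩ <;> linarith
      · rintro ⟨⟨p1, p2⟩, p3, p4⟩
        by_cases c1 : 1 / 2 ≤ x
        · refine ⟨4, ⟨?_, ?_⟩, ?_, ?_⟩ <;> simp <;> linarith
        by_cases c2 : 1 / 2 ≤ y
        · refine ⟨5, ⟨?_, ?_⟩, ?_, ?_⟩ <;> simp <;> linarith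
        by_cases c3 : t ≤ x <;> by_cases c4 : 1 / 2 - t ≤ y
        · refine ⟨2, ⟨?_, ?_⟩, ?_, ?_⟩ <;> simp <;> linarith
        · refine ⟨0, ⟨?_, ?_⟩, ?_, ?_⟩ <;> simp <;> linarith
        · refine ⟨1, ⟨?_, ?_⟩, ?_, ?_⟩ <;> simp <;> linarith
        · refine ⟨3, ⟨?_, ?_⟩, ?_, ?_⟩ <;> simp <;> linarith)
    (by
      rintro r ⟨x, y⟩ ⟨⟨p1, p2⟩, p3, p4⟩
      unfold ph
      fin_cases r <;> simp only [Fin.zero_eta, Fin.mk_one, Fin.reduceFinMk, Matrix.cons_val] at p1 p2 p3 p4 ⊢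
      · rw [if_pos ⟨by linarith, by linarith⟩, if_pos p2, if_neg (by linarith)]
      · rw [if_pos ⟨by linarith, by linarith⟩, if_neg (by linarith), if_pos p4]
      · rw [if_pos ⟨by linarith, by linarith⟩, if_pos p2, if_pos p4]
      · rw [if_pos ⟨by linarith, by linarith⟩, if_neg (by linarith), if_neg (by linarith)]
      · rw [if_neg (fun h => by linarith [h.1])]; simp
      · rw [if_neg (fun h => by linarith [h.2])]; simp)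
    (0, 0) (by simp) (1 / 4) (by norm_num)
  obtain ⟨N, hN, k1, k2, hk⟩ := key
  obtain ⟨M, rfl⟩ : ∃ M, N = M + 1 := ⟨N - 1, by omega⟩
  obtain ⟨x, k, e, -, -, -⟩ := orbit t h0 h1 hi M
  rw [e] at hk
  simp only at hk
  have hz : (1 / 2 + ((k1 + k2 : ℤ) : ℝ)) ^ 2 ≥ 1 / 4 := by
    rcases le_or_gt 0 (k1 + k2) with h | h
    · have : (0:ℝ) ≤ ((k1 + k2 : ℤ) : ℝ) := by exact_mod_cast h
      nlinarith
    · have : ((k1 + k2 : ℤ) : ℝ) ≤ -1 := by exact_mod_cast (by omega : k1 + k2 ≤ -1)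
      nlinarith
  push_cast at hz
  nlinarith [sq_nonneg ((x + k1) - (1 / 2 - x + k2))]

end Pool.Agent.H.MP_68b5a7_an
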